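import Mathlib

set_option autoImplicit false

/-!
Project BZ.  Barnes double zeta function with weights `(1, θ)` and the failure of the bound of
Lindelöf type (and of the moment bound) on the line `Re s = 1` when `θ` is a Liouville number.

`h a θ z = ∑_{m,n} exp (-(a + m + n θ) z)`;  `Z a θ s = ∑_{m,n} (a + m + n θ)^(-s)`;
`f = h - (b0 z^(-2) + b1 z^(-1)) exp (-z)` is bounded near `0`.
-/

open Complex Set Filter Asymptotics MeasureTheory Topology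

namespace Pool.Agent.Q155.BZ

/-- the generating function of the numbers `a + m + n θ` -/
noncomputable def h (a θ : ℝ) (z : ℂ) : ℂ :=
  Complex.exp (-((a : ℂ) * z)) /
    ((1 - Complex.exp (-z)) * (1 - Complex.exp (-((θ : ℂ) * z))))

/-- second Laurent coefficient of `h(z) exp z` at `0` -/
noncomputable def b1 (a θ : ℝ) : ℝ := ((3 + θ) / 2 - a) / θ

/-- the regularised generating function -/
noncomputable def f (a θ : ℝ) (z : ℂ) : ℂ :=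
  h a θ z - (((1 / θ : ℝ) : ℂ) / z ^ 2 + ((b1 a θ : ℝ) : ℂ) / z) * Complex.exp (-z)

/-- the Dirichlet series -/
noncomputable def Z (a θ : ℝ) (s : ℂ) : ℂ :=
  ∑' p : ℕ × ℕ, ((a + (p.1 : ℝ) + (p.2 : ℝ) * θ : ℝ) : ℂ) ^ (-s)

/-- `F` is the continuation of the Dirichlet series -/
def Cont (a θ : ℝ) (F : ℂ → ℂ) : Prop :=
  DifferentiableOn ℂ F {s : ℂ | s ≠ 1 ∧ s ≠ 2} ∧ ∀ s : ℂ, 2 < s.re → F s = Z a θ s

/-- BZ-1.  General continuation lemma: the Mellin transform divided by `Gamma` is entire.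
Proof: `p` = power series at `0` of `exp z * G z`, coefficients `c_j`; put
`R_k x = g x - exp (-x) * ∑_{j<k} c_j x^j = O(x^k)` at `0+` and `O(exp (-c' x))` at infinity;
`Φ_k s = ∑_{j<k} c_j * s (s+1) ... (s+j-1) + mellin R_k s / Gamma s` is differentiable on `Re s > -k`
(`mellin_differentiableAt_of_isBigO_rpow_exp`, `Complex.differentiable_one_div_Gamma`), and
`Φ_k = Φ_{k+1}` there, because `mellin (x^k exp (-x)) s = Gamma (s + k)` for `Re s > -k`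
(`Gamma (s+k) / Gamma s` is the polynomial `s (s+1) ... (s+k-1)`, ALSO when `s` is a pole:
multiply by the entire function `1/Gamma`; one can use
`(Gamma s)⁻¹ = s (s+1) ... (s+k-1) * (Gamma (s+k))⁻¹`). `Φ s = Φ_{k(s)} s` with
`k(s) = ⌈-Re s⌉₊ + 1`. -/
def S_CONT : Prop := ∀ (g : ℝ → ℂ) (G : ℂ → ℂ) (c : ℝ), 0 < c → ContinuousOn g (Ioi 0) →
  AnalyticAt ℂ G 0 → (∀ᶠ x : ℝ in 𝓝[>] 0, g x = G (x : ℂ)) →
  (g =O[atTop] fun x => Real.exp (-(c * x))) →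
  ∃ Φ : ℂ → ℂ, Differentiable ℂ Φ ∧ ∀ s : ℂ, 0 < s.re → Gamma s * Φ s = mellin g s

/-- BZ-2.  Mellin transform of the series along a ray. Proof: termwise
(`hasSum_integral_of_summable_integral_norm`), `Complex.integral_cpow_mul_exp_neg_mul_Ioi`, and
`a + m + n θ ≥ c (1+m)^(1/2) (1+n)^(1/2)` for the summability (`σ > 2`). -/
def S_SER : Prop := ∀ a θ : ℝ, 0 < a → 0 < θ → ∀ s : ℂ, 2 < s.re →
  (Summable fun p : ℕ × ℕ => ((a + (p.1 : ℝ) + (p.2 : ℝ) * θ : ℝ) : ℂ) ^ (-s)) ∧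
  ∀ u : ℂ, 0 < u.re →
    MellinConvergent (fun x : ℝ => h a θ (u * (x : ℂ))) s ∧
    mellin (fun x : ℝ => h a θ (u * (x : ℂ))) s = Gamma s * u ^ (-s) * Z a θ s

/-- BZ-3.  `f` is bounded near `0`; `z^2 h(z)` is analytic at `0`.
(Use `dslope` or the power series of `exp`: `(1 - exp (-z)) = z * φ z` with `φ` analytic and
`φ 0 = 1`, `φ' 0 = -1/2`; `ρ` depends on `θ`.) -/
def S_NEAR : Prop := ∀ a θ : ℝ, 0 < θ → ∃ ρ : ℝ, 0 < ρ ∧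
  (∃ C : ℝ, ∀ z : ℂ, 0 < z.re → ‖z‖ ≤ ρ → ‖f a θ z‖ ≤ C) ∧
  ∃ G : ℂ → ℂ, AnalyticAt ℂ G 0 ∧ ∀ z : ℂ, 0 < z.re → ‖z‖ ≤ ρ → G z = z ^ 2 * h a θ z

/-- BZ-4.  Continuity and decay along rays. -/
def S_FAR : Prop := ∀ a θ : ℝ, 0 < a → 0 < θ → ∀ u : ℂ, 0 < u.re →
  ContinuousOn (fun x : ℝ => f a θ (u * (x : ℂ))) (Ioi 0) ∧
  ContinuousOn (fun x : ℝ => h a θ (u * (x : ℂ))) (Ioi 0) ∧
  ∃ c : ℝ, 0 < c ∧
    ((fun x : ℝ => f a θ (u * (x : ℂ))) =O[atTop] fun x => Real.exp (-(c * x))) ∧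
    ((fun x : ℝ => h a θ (u * (x : ℂ))) =O[atTop] fun x => Real.exp (-(c * x))) ∧
    ((fun x : ℝ => (x : ℂ) ^ 2 * h a θ (u * (x : ℂ))) =O[atTop] fun x => Real.exp (-(c * x)))

/-- BZ-5.  Rotation of the ray of the Mellin transform of `f`.
Proof: for `Re s > 2` from `S_SER` and `Complex.integral_cpow_mul_exp_neg_mul_Ioi` (for the two
subtracted terms); both sides are analytic on `Re s > 0`
(`mellin_differentiableAt_of_isBigO_rpow_exp`, with `S_NEAR`, `S_FAR`), identity theorem on the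
half plane. -/
def S_ROT : Prop := ∀ a θ : ℝ, 0 < a → 0 < θ → ∀ u : ℂ, 0 < u.re → ∀ s : ℂ, 0 < s.re →
    MellinConvergent (fun x : ℝ => f a θ (u * (x : ℂ))) s ∧
    mellin (fun x : ℝ => f a θ (u * (x : ℂ))) s
      = u ^ (-s) * mellin (fun x : ℝ => f a θ (x : ℂ)) s

/-- BZ-6.  Existence of the continuation, from `S_CONT` applied to `g x = x^2 h(x)`:
`F s = Ψ s / ((s - 1) (s - 2))` with `Ψ s = Φ (s - 2)`, since `Gamma s = (s-1)(s-2) Gamma (s-2)`. -/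
def S_EX : Prop := ∀ a θ : ℝ, 0 < a → 0 < θ →
  ∃ F Ψ : ℂ → ℂ, Cont a θ F ∧ Differentiable ℂ Ψ ∧
    ∀ s : ℂ, F s = Ψ s / ((s - 1) * (s - 2))

/-- BZ-13.  Uniqueness of the continuation (identity theorem on the connected set
`{s ≠ 1, s ≠ 2}`, `Set.Countable.isPathConnected_compl_of_one_lt_rank`). -/
def S_UNI : Prop := ∀ (a θ : ℝ) (F F' : ℂ → ℂ), Cont a θ F → Cont a θ F' →
  ∀ s : ℂ, s ≠ 1 → s ≠ 2 → F s = F' s

/-- BZ-14.  The Mellin transform of `f` in terms of the continuation: for `Re s > 2` directly; with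
the `F`, `Ψ` of `S_EX` the identity multiplied by `(s-1)(s-2)` is
`(s-1)(s-2) mellin f s = Gamma s Ψ s - (1/θ) Gamma s - b1 (s-2) Gamma s`, analytic for
`Re s > 0`; identity theorem; then `S_UNI`. -/
def S_VAL : Prop := ∀ a θ : ℝ, 0 < a → 0 < θ → ∀ F : ℂ → ℂ, Cont a θ F →
  ∀ s : ℂ, 0 < s.re → s ≠ 1 → s ≠ 2 →
    mellin (fun x : ℝ => f a θ (x : ℂ)) s
      = Gamma s * F s - ((1 / θ : ℝ) : ℂ) * Gamma (s - 2) - ((b1 a θ : ℝ) : ℂ) * Gamma (s - 1)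

/-- BZ-7.  Sizes of `Gamma` from the reflection formula: `‖Γ(1+it)‖² = πt / sinh πt`. -/
def S_GAM : Prop := ∃ C : ℝ, ∀ t : ℝ, 1 ≤ t →
  ‖Gamma (1 + (t : ℂ) * I)‖ ≤ C * Real.sqrt t * Real.exp (-(Real.pi * t / 2)) ∧
  ‖Gamma ((t : ℂ) * I)‖ ≤ C * Real.sqrt t * Real.exp (-(Real.pi * t / 2)) ∧
  ‖Gamma (-1 + (t : ℂ) * I)‖ ≤ C * Real.sqrt t * Real.exp (-(Real.pi * t / 2))

/-- BZ-8.  Abelian lemma (integration by parts). -/
def S_ABEL : Prop := ∀ (K : ℝ → ℝ) (C β : ℝ), Continuous K → (∀ t, 0 ≤ K t) → 0 ≤ β →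
  (∀ T : ℝ, 1 ≤ T → ∫ t in (0 : ℝ)..T, K t ≤ C * T ^ β) →
  ∃ C' : ℝ, ∀ δ : ℝ, 0 < δ → δ ≤ 2 →
    IntegrableOn (fun t => K t * Real.exp (-(δ * t))) (Ioi 0) ∧
    ∫ t in Ioi (0 : ℝ), K t * Real.exp (-(δ * t)) ≤ C' * δ ^ (-β)

/-- BZ-9.  Mellin inversion on the line `Re s = 1` (`mellin_inversion`, at `x = ‖z‖`, for the
function `f a θ (u x)`, `u = z / ‖z‖`), with the symmetry
`mellin f (conj s) = conj (mellin f s)` (`f` is real on the positive reals). -/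
def S_INV : Prop := ∀ a θ : ℝ, 0 < a → 0 < θ →
  (Continuous fun t : ℝ => mellin (fun x : ℝ => f a θ (x : ℂ)) (1 + (t : ℂ) * I)) ∧
  ∀ z : ℂ, 0 < z.re →
    IntegrableOn (fun t : ℝ => ‖mellin (fun x : ℝ => f a θ (x : ℂ)) (1 + (t : ℂ) * I)‖
      * Real.exp (|Complex.arg z| * t)) (Ioi 0) →
    ‖f a θ z‖ ≤ 1 / (Real.pi * ‖z‖) *
      ∫ t in Ioi (0 : ℝ), ‖mellin (fun x : ℝ => f a θ (x : ℂ)) (1 + (t : ℂ) * I)‖
        * Real.exp (|Complex.arg z| * t)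

/-- BZ-10.  The generating function is large near `2 π i q`. -/
def S_LOW : Prop := ∀ a θ : ℝ, 0 < a → 0 < θ → ∃ c C : ℝ, 0 < c ∧
  ∀ (q : ℕ) (p : ℤ) (δ : ℝ), 1 ≤ q → 0 < δ → δ ≤ 1 → |(q : ℝ) * θ - p| ≤ δ →
    c / δ ^ 2 - C ≤ ‖f a θ ((δ : ℂ) + ((2 * Real.pi * q : ℝ) : ℂ) * I)‖ ∧
    δ / (4 * Real.pi * q) ≤
      Real.pi / 2 - |Complex.arg ((δ : ℂ) + ((2 * Real.pi * q : ℝ) : ℂ) * I)|

/-- BZ-11.  The first absolute moment bound forces a Diophantine inequality. -/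
def S_DIO : Prop := ∀ a θ : ℝ, 0 < a → 0 < θ → ∀ F : ℂ → ℂ, Cont a θ F →
  ∀ ε C : ℝ, 0 ≤ ε → ε < 1 / 2 →
  (∀ T : ℝ, 1 ≤ T → ∫ t in (1 : ℝ)..T, ‖F (1 + (t : ℂ) * I)‖ ≤ C * T ^ (1 + ε)) →
  ∃ C' : ℝ, ∀ (q : ℕ) (p : ℤ) (δ : ℝ), 1 ≤ q → 0 < δ → δ ≤ 1 → |(q : ℝ) * θ - p| ≤ δ →
    δ ^ (-(1 / 2 - ε)) ≤ C' * (q : ℝ) ^ (1 / 2 + ε)

/-- BZ-12.  Contradiction for Liouville numbers (also the case without the Liouville hypothesis: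
only used as stated). -/
def S_LIO : Prop := ∀ a θ : ℝ, 0 < a → 0 < θ → Liouville θ → ∀ F : ℂ → ℂ, Cont a θ F →
  ∀ ε : ℝ, 0 ≤ ε → ε < 1 / 2 →
  ¬ ∃ C : ℝ, ∀ T : ℝ, 1 ≤ T → ∫ t in (1 : ℝ)..T, ‖F (1 + (t : ℂ) * I)‖ ≤ C * T ^ (1 + ε)

end Pool.Agent.Q155.BZ
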